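import Pool.Agent.Y661.GL.Fin
import Pool.Agent.Y661.GL.Crit
import Pool.Agent.Y661.GL.Rota

/-!
# Spectral isometries between C*-algebras, the centre and the Glimm ideals

`carrier m` (`Pool.Agent.Helper757.GL.Defs`) is an ideal `m` of the centre as a set of elements of the
algebra and `closedIdeal S` is the closed two-sided ideal generated by `S`: so
`closedIdeal (carrier m)` is the Glimm ideal `G_m` when `m` is maximal.
-/

set_option autoImplicit false

universe u v

namespace Pool.Agent.Results.MP_6c6b5e_an.SpectralIsometries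

open Pool.Agent.Helper757.GL (closedIdeal carrier)

/-- The spectrum of the class of `a` in `A / I`, for a two-sided ideal `I`: the `μ` for which
`μ - a` is not invertible modulo `I`. -/
def specMod {A : Type u} [CStarAlgebra A] (I : Set A) (a : A) : Set ℂ :=
  {μ | ¬ ∃ y : A, (algebraMap ℂ A μ - a) * y - 1 ∈ I ∧ y * (algebraMap ℂ A μ - a) - 1 ∈ I}

/-- The spectral radius of the class of `a` in `A / I`. -/
noncomputable def radMod {A : Type u} [CStarAlgebra A] (I : Set A) (a : A) : ENNReal :=
  ⨆ μ ∈ specMod I a, (‖μ‖₊ : ENNReal)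

/-- **Part 1** (contractions). Let `T : A → B` be a unital surjective linear map between unital
C*-algebras with `r(Tx) ≤ r(x)`. For every ideal `m` of the centre of `A`, `T` maps the closed ideal
of `A` generated by `m` into the closed ideal of `B` generated by `T(m)`, and the induced map between
the quotients does not increase the spectral radius. -/
def Contractions : Prop :=
  ∀ (A : Type u) (B : Type v) [CStarAlgebra A] [CStarAlgebra B] (T : A →ₗ[ℂ] B), T 1 = 1 →
    Function.Surjective T → (∀ x, spectralRadius ℂ (T x) ≤ spectralRadius ℂ x) →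
    ∀ m : Ideal (Subalgebra.center ℂ A),
      (∀ x ∈ closedIdeal (carrier m), T x ∈ closedIdeal (T '' carrier m)) ∧
      ∀ x, radMod (closedIdeal (T '' carrier m)) (T x) ≤ radMod (closedIdeal (carrier m)) x

/-- **Part 2** (isometries). If `r(Tx) = r(x)` for all `x` then `T` is injective, maps the centre onto
the centre, respects the involution on the centre and is a module map over the centre:
`T(zx) = T(z)T(x)` for `z` central and all `x`. For every ideal `m` of the centre, `T(m)` is an ideal
of the centre of `B` (maximal if `m` is), `T(G_m) = G_{T(m)}`, and the induced map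
`A/G_m → B/G_{T(m)}` is again a spectral isometry. -/
def Isometries : Prop :=
  ∀ (A : Type u) (B : Type v) [CStarAlgebra A] [CStarAlgebra B] (T : A →ₗ[ℂ] B), T 1 = 1 →
    Function.Surjective T → (∀ x, spectralRadius ℂ (T x) = spectralRadius ℂ x) →
    Function.Injective T ∧
    (∀ x, x ∈ Subalgebra.center ℂ A ↔ T x ∈ Subalgebra.center ℂ B) ∧
    (∀ z ∈ Subalgebra.center ℂ A, T (star z) = star (T z) ∧ ∀ x, T (z * x) = T z * T x) ∧
    ∀ m : Ideal (Subalgebra.center ℂ A),
      (∃ n : Ideal (Subalgebra.center ℂ B), carrier n = T '' carrier m ∧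
        (m.IsMaximal → n.IsMaximal)) ∧
      T '' closedIdeal (carrier m) = closedIdeal (T '' carrier m) ∧
      ∀ x, radMod (closedIdeal (T '' carrier m)) (T x) = radMod (closedIdeal (carrier m)) x

/-- `T` is unital, the identity on the centre, changes the spectral radius at most by the factor
`1 + ε` in both directions, and does not leave all Glimm ideals invariant. -/
def Moves {A : Type u} [CStarAlgebra A] (ε : ℝ) (T : A ≃ₗ[ℂ] A) : Prop :=
  T 1 = 1 ∧ (∀ z ∈ Subalgebra.center ℂ A, T z = z) ∧
  (∀ x, spectralRadius ℂ (T x) ≤ ENNReal.ofReal (1 + ε) * spectralRadius ℂ x) ∧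
  (∀ x, spectralRadius ℂ x ≤ ENNReal.ofReal (1 + ε) * spectralRadius ℂ (T x)) ∧
  ∃ m : Ideal (Subalgebra.center ℂ A), m.IsMaximal ∧
    ∃ x ∈ closedIdeal (carrier m), T x ∉ closedIdeal (T '' carrier m)

/-- **Part 3** (the constant `1` is sharp in many algebras). If the centre of `A` is not `ℂ 1` and
there is a nonzero bounded trace `φ` on `A` that vanishes on the centre (for instance the difference
of two tracial states that agree on the centre), then for every `ε > 0` there is a `T` as in
`Moves`. -/
def Criterion : Prop :=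
  ∀ (A : Type u) [CStarAlgebra A] (φ : A →ₗ[ℂ] ℂ) (K : ℝ), (∀ x, ‖φ x‖ ≤ K * ‖x‖) →
    (∀ x y, φ (x * y) = φ (y * x)) → (∀ z ∈ Subalgebra.center ℂ A, φ z = 0) → φ ≠ 0 →
    (∃ z ∈ Subalgebra.center ℂ A, ∀ c : ℂ, z ≠ c • (1 : A)) →
    ∀ ε : ℝ, 0 < ε → ∃ T : A ≃ₗ[ℂ] A, Moves ε T

/-- **Part 4** (existence). For every `ε > 0` there are a unital C*-algebra and a `T` as in
`Moves`. -/
def Sharpness : Prop :=
  ∀ ε : ℝ, 0 < ε → ∃ (A : Type) (_ : CStarAlgebra A) (T : A ≃ₗ[ℂ] A), Moves ε T

theorem radMod_eq {A : Type u} [CStarAlgebra A] {C : Type u} [Ring C] [Algebra ℂ C]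
    (π : A →ₐ[ℂ] C) (hπ : Function.Surjective π) {I : Set A} (hI : ∀ a, π a = 0 ↔ a ∈ I) (a : A) :
    radMod I a = spectralRadius ℂ (π a) := by
  have h : specMod I a = spectrum ℂ (π a) := by
    ext μ
    rw [spectrum.mem_iff, ← AlgHomClass.commutes π μ, ← map_sub,
      Pool.Agent.Y661.GL.Asm.isUnit_iff π hπ hI]
    rfl
  unfold radMod spectralRadius
  rw [h]

theorem contractions : Contractions.{u, v} := by
  intro A B _ _ T h1 hs hr m
  refine ⟨fun x hx => Pool.Agent.Helper757.GL.main T h1 hs hr m hx, fun x => ?_⟩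
  have H := Pool.Agent.Helper757.GL.closedSub_CI (A := A) (carrier m)
  have H' := Pool.Agent.Helper757.GL.closedSub_CI (A := B) (T '' carrier m)
  have hI := Pool.Agent.Helper757.GL.mkHom_eq_zero H
  have hJ := Pool.Agent.Helper757.GL.mkHom_eq_zero H'
  have e1 := radMod_eq (I := closedIdeal (carrier m)) (Pool.Agent.Helper757.GL.mkHom H)
    (Pool.Agent.Helper757.GL.mkHom_surj H) hI x
  have e2 := radMod_eq (I := closedIdeal (T '' carrier m)) (Pool.Agent.Helper757.GL.mkHom H')
    (Pool.Agent.Helper757.GL.mkHom_surj H') hJ (T x)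
  rw [e1, e2]
  exact Pool.Agent.Y661.GL.Asm.quot_le T h1 hs hr m _ _
    (Pool.Agent.Helper757.GL.mkHom_surj H) hI hJ x

theorem isometries : Isometries.{u, v} := by
  intro A B _ _ T h1 hs hr
  obtain ⟨p1, p2, p3, -, p5⟩ := Pool.Agent.Y661.GL.Fin.isometry_all.{u, v, u, v} T h1 hs hr
  refine ⟨p1, p2, p3, fun m => ⟨(p5 m).1, (p5 m).2.1, fun x => ?_⟩⟩
  have H := Pool.Agent.Helper757.GL.closedSub_CI (A := A) (carrier m)
  have H' := Pool.Agent.Helper757.GL.closedSub_CI (A := B) (T '' carrier m)
  have hI := Pool.Agent.Helper757.GL.mkHom_eq_zero H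
  have hJ := Pool.Agent.Helper757.GL.mkHom_eq_zero H'
  have e1 := radMod_eq (I := closedIdeal (carrier m)) (Pool.Agent.Helper757.GL.mkHom H)
    (Pool.Agent.Helper757.GL.mkHom_surj H) hI x
  have e2 := radMod_eq (I := closedIdeal (T '' carrier m)) (Pool.Agent.Helper757.GL.mkHom H')
    (Pool.Agent.Helper757.GL.mkHom_surj H') hJ (T x)
  rw [e1, e2]
  exact (p5 m).2.2 _ _ (Pool.Agent.Helper757.GL.mkHom H) (Pool.Agent.Helper757.GL.mkHom H')
    (Pool.Agent.Helper757.GL.mkHom_surj H) (Pool.Agent.Helper757.GL.mkHom_surj H') hI hJ x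

/-- Spectral contractions and spectral isometries between C*-algebras: the closed ideals generated by
ideals of the centre are respected, isometries are module maps over the centre, and the constant `1`
is sharp. -/
theorem result : Contractions.{u, v} ∧ Isometries.{u, v} ∧ Criterion.{u} ∧ Sharpness :=
  ⟨contractions, isometries,
    fun _A _ φ K h1 h2 h3 h4 h5 ε hε => Pool.Agent.Y661.GL.Crit.crit φ K
      (Pool.Agent.Y661.GL.Rota.trace_le φ K h1 h2) h3 h4 h5 ε hε,
    Pool.Agent.Y564.GL.main⟩

end Pool.Agent.Results.MP_6c6b5e_an.SpectralIsometries
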